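import Pool.Agent.H.MP_08c933_an.C

set_option autoImplicit false

namespace Pool.Agent.Results.MP_08c933_an.Yes

open Filter Topology

variable {B : Type} [NormedAddCommGroup B] [NormedSpace ℂ B]

/-- `u` converges weakly to `y` -/
def WLim (u : ℕ → B) (y : B) : Prop :=
  ∀ φ : B →L[ℂ] ℂ, Tendsto (fun k => φ (u k)) atTop (𝓝 (φ y))

/-- weakly sequentially closed sets -/
def SeqClosed (C : Set B) : Prop := ∀ (u : ℕ → B) (y : B), (∀ k, u k ∈ C) → WLim u y → y ∈ C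

/-- the orbit -/
def Orb (T : B →L[ℂ] B) (x : B) : Set B := Set.range fun n : ℕ => T^[n] x

/-- weakly sequentially hypercyclic -/
def WSH (T : B →L[ℂ] B) : Prop :=
  ∃ x : B, ∀ C : Set B, SeqClosed C → Orb T x ⊆ C → C = Set.univ

/-- weakly 1-sequentially hypercyclic -/
def W1SH (T : B →L[ℂ] B) : Prop :=
  ∃ x : B, ∀ y : B, ∃ u : ℕ → B, (∀ k, u k ∈ Orb T x) ∧ WLim u y

theorem result : ∃ (B : Type) (_ : NormedAddCommGroup B) (_ : NormedSpace ℂ B)
    (_ : CompleteSpace B) (T : B →L[ℂ] B), WSH T ∧ ¬ W1SH T := by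
  refine ⟨Pool.Agent.H.MP_08c933_an.X, inferInstance, inferInstance, inferInstance,
    Pool.Agent.H.MP_08c933_an.T, ⟨_, Pool.Agent.H.MP_08c933_an.yes⟩, fun ⟨x, h⟩ => ?_⟩
  obtain ⟨y, hy⟩ := Pool.Agent.H.MP_08c933_an.no1 x
  obtain ⟨u, h1, h2⟩ := h y
  exact hy u h1 h2

end Pool.Agent.Results.MP_08c933_an.Yes
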